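import Pool.Agent.Q225.GH.Stm

/-!
Project GH (helper225), job BIL: the intersection form is bilinear.
-/

set_option autoImplicit false

namespace Pool.Agent.Q224.GH

open Finset Pool.Agent.Q225.GH

section

variable {V : Type} [Fintype V] [DecidableEq V] {H : SimpleGraph V}

lemma on_add (P P' : Ch H) (d : H.Dart) : on (P + P') d = on P d + on P' d := rfl

lemma on_smul (a : ZMod 2) (P : Ch H) (d : H.Dart) : on (a • P) d = a * on P d := rfl

lemma on_sum {I : Type} [Fintype I] (c : I → ZMod 2) (P : I → Ch H) (d : H.Dart) :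
    on (∑ i, c i • P i) d = ∑ i, c i * on (P i) d := by
  unfold on
  rw [Finset.sum_apply]
  rfl

variable [DecidableRel H.Adj]

lemma pot_sum (pos : H.Dart → ℕ) {I : Type} [Fintype I] (c : I → ZMod 2) (P : I → Ch H)
    (d : H.Dart) : pot pos (∑ i, c i • P i) d = ∑ i, c i * pot pos (P i) d := by
  unfold pot
  simp_rw [on_sum, Finset.mul_sum]
  rw [Finset.sum_comm]

lemma dbl_sum {D I J : Type} (s : Finset D) [Fintype I] [Fintype J] (c : I → ZMod 2)
    (c' : J → ZMod 2) (a : I → D → ZMod 2) (b : J → D → ZMod 2) :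
    ∑ d ∈ s, (∑ i, c i * a i d) * (∑ j, c' j * b j d) =
      ∑ i, ∑ j, c i * c' j * ∑ d ∈ s, a i d * b j d := by
  simp_rw [Finset.sum_mul_sum, Finset.mul_sum]
  rw [Finset.sum_comm]
  apply Finset.sum_congr rfl
  intro i _
  rw [Finset.sum_comm]
  apply Finset.sum_congr rfl
  intro j _
  apply Finset.sum_congr rfl
  intro d _
  ring

end

theorem t_BIL : S_BIL := by
  intro V _ _ H _ pos I J _ _ c c' P Q
  have h1 : ∀ e, (∑ i, c i • P i) e = ∑ i, c i * P i e := by
    intro e
    rw [Finset.sum_apply]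
    rfl
  have h2 : ∀ e, (∑ j, c' j • Q j) e = ∑ j, c' j * Q j e := by
    intro e
    rw [Finset.sum_apply]
    rfl
  unfold form
  simp_rw [on_sum, pot_sum, h1, h2]
  rw [dbl_sum, dbl_sum, ← Finset.sum_add_distrib]
  apply Finset.sum_congr rfl
  intro i _
  rw [← Finset.sum_add_distrib]
  apply Finset.sum_congr rfl
  intro j _
  ring

end Pool.Agent.Q224.GH
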