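import Pool.Agent.Q224.GH.BIL

/-!
Project GH (helper225), job RANK: dual families of cycles are small.
-/

set_option autoImplicit false

namespace Pool.Agent.Q224.GH

open Finset Pool.Agent.Q225.GH

section

variable {V : Type} [Fintype V] [DecidableEq V] {H : SimpleGraph V} [DecidableRel H.Adj]

/-- The form as a linear functional of the first argument. -/
def formL (pos : H.Dart → ℕ) (Q : Ch H) : Ch H →ₗ[ZMod 2] ZMod 2 where
  toFun P := form pos P Q
  map_add' P P' := by
    unfold form
    simp only [on_add, Pi.add_apply, add_mul, Finset.sum_add_distrib]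
    ring
  map_smul' a P := by
    unfold form
    simp only [on_smul, Pi.smul_apply, smul_eq_mul, RingHom.id_apply, mul_assoc, mul_add,
      Finset.mul_sum]

/-- The cycles as a submodule. -/
def cycS (H : SimpleGraph V) [DecidableRel H.Adj] : Submodule (ZMod 2) (Ch H) where
  carrier := {P | Cyc P}
  add_mem' := by
    intro P P' hP hP' v
    simp only [on_add, Finset.sum_add_distrib]
    rw [hP v, hP' v, add_zero]
  zero_mem' := by
    intro v
    apply Finset.sum_eq_zero
    intro d _
    rfl
  smul_mem' := by
    intro a P hP v
    simp only [on_smul, ← Finset.mul_sum]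
    rw [hP v, mul_zero]

end

open Classical in
theorem t_RANK (h1 : S_FORMF) (h2 : S_CYCF) (h3 : S_KER) (h4 : S_DIMC) : S_RANK := by
  intro V _ _ H _ σ g pos hrot hpos R _ _ P Q hP hQ hPQ
  let Φ : ((R → ZMod 2) × (Faces σ → ZMod 2)) →ₗ[ZMod 2] Ch H :=
    (Fintype.linearCombination (ZMod 2) P).coprod
      (Fintype.linearCombination (ZMod 2) (fun f : Faces σ => fch σ f))
  have hΦ : ∀ c y, Φ (c, y) = ∑ i, c i • P i + ∑ f, y f • fch σ f := by
    intro c y
    simp only [Φ, LinearMap.coprod_apply, Fintype.linearCombination_apply]
  -- the range consists of cycles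
  have hrange : ∀ Z ∈ LinearMap.range Φ, Cyc Z := by
    rintro Z ⟨⟨c, y⟩, rfl⟩
    rw [hΦ]
    have h5 : (∑ i, c i • P i + ∑ f, y f • fch σ f) ∈ cycS H := by
      apply Submodule.add_mem
      · exact Submodule.sum_mem _ (fun i _ => Submodule.smul_mem _ _ (hP i))
      · exact Submodule.sum_mem _ (fun f _ => Submodule.smul_mem _ _ (h2 V H σ hrot.vert f))
    exact h5
  -- the kernel
  have hker : LinearMap.ker Φ ≤ Submodule.span (ZMod 2)
      {((0 : R → ZMod 2), (1 : Faces σ → ZMod 2))} := by
    rintro ⟨c, y⟩ hcy
    rw [LinearMap.mem_ker, hΦ] at hcy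
    have hc : c = 0 := by
      funext j
      have h6 : formL pos (Q j) (∑ i, c i • P i + ∑ f, y f • fch σ f) = 0 := by
        rw [hcy, map_zero]
      rw [map_add, map_sum, map_sum] at h6
      have h7 : ∑ f, formL pos (Q j) (y f • fch σ f) = 0 := by
        apply Finset.sum_eq_zero
        intro f _
        rw [map_smul]
        have h8 : formL pos (Q j) (fch σ f) = 0 := h1 V H σ pos hrot.vert hpos (Q j) (hQ j) f
        rw [h8, smul_zero]
      have h9 : ∑ i, formL pos (Q j) (c i • P i) = c j := by
        rw [Finset.sum_eq_single j]
        · rw [map_smul]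
          have h10 : formL pos (Q j) (P j) = 1 := by
            have := hPQ j j
            rw [if_pos rfl] at this
            exact this
          rw [h10, smul_eq_mul, mul_one]
        · intro i _ hij
          rw [map_smul]
          have h10 : formL pos (Q j) (P i) = 0 := by
            have := hPQ i j
            rw [if_neg hij] at this
            exact this
          rw [h10, smul_zero]
        · intro h
          exact absurd (Finset.mem_univ j) h
      rw [h7, h9, add_zero] at h6
      exact h6
    have hy0 : ∑ f, y f • fch σ f = 0 := by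
      rw [hc] at hcy
      simpa using hcy
    have hy := h3 V H σ hrot.conn hrot.vert y (by convert hy0)
    rw [Submodule.mem_span_singleton]
    by_cases hF : Nonempty (Faces σ)
    · obtain ⟨f0⟩ := hF
      refine ⟨y f0, ?_⟩
      rw [hc]
      apply Prod.ext
      · simp
      · funext f
        simp [hy f f0]
    · refine ⟨0, ?_⟩
      rw [hc]
      apply Prod.ext
      · simp
      · funext f
        exact absurd ⟨f⟩ hF
  have hker1 : Module.finrank (ZMod 2) (LinearMap.ker Φ) ≤ 1 := by
    refine (Submodule.finrank_mono hker).trans ?_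
    refine (finrank_span_le_card _).trans ?_
    simp
  have hrn := LinearMap.finrank_range_add_finrank_ker Φ
  have hdim : Module.finrank (ZMod 2) ((R → ZMod 2) × (Faces σ → ZMod 2)) =
      Fintype.card R + Fintype.card (Faces σ) := by
    rw [Module.finrank_prod, Module.finrank_fintype_fun_eq_card,
      Module.finrank_fintype_fun_eq_card]
  have hd := h4 V H hrot.conn (LinearMap.range Φ) hrange
  have he := hrot.euler
  have hcF : Nat.card (Faces σ) = Fintype.card (Faces σ) := Nat.card_eq_fintype_card
  rw [hcF] at he
  rw [hdim] at hrn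
  omega

end Pool.Agent.Q224.GH
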